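import Pool.Agent.helper85.FC.Defs
import Pool.Agent.helper85.MT.Char2
import Pool.Agent.Lib.SieveInterval

/-!
# FC T0, T1: the weight in residue classes, and under affine maps
-/

namespace Pool.Agent.helper85.FC

open Finset Real ArithmeticFunction Pool.Agent.helper39.MT

/-- T0: equidistribution of the weight in residue classes. -/
theorem wt_equi1 : ∃ C : ℝ, 0 < C ∧ ∀ a : ℝ, 1 ≤ a → ∀ D ν : ℕ, 0 < D →
    |∑ n ∈ Ioc 0 (NN 1 a) with n ≡ ν [MOD D], wt 1 a n - mass a / D| ≤ C * Real.exp (-a) := by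
  obtain ⟨K, hK0, hK⟩ := Pool.Agent.helper85.MT.V_lip
  refine ⟨4 * (K + 2), by positivity, ?_⟩
  intro a ha D ν hD
  unfold mass
  set N := NN 1 a with hN
  set κ : ℕ → ℝ := fun n => (if n ≡ ν [MOD D] then (1 : ℝ) else 0) - 1 / D with hκ
  have hpart : ∀ y : ℕ, ‖∑ k ∈ Ioc 0 y, ((κ k : ℝ) : ℂ)‖ ≤ 1 := by
    intro y
    rw [← Complex.ofReal_sum, Complex.norm_real, Real.norm_eq_abs]
    have h1 := Pool.Agent.Lib.BrunHooley.card_modEq_approx 0 y D ν hD
    rw [zero_add] at h1
    have h2 : ∑ k ∈ Ioc 0 y, κ k = ((#{n ∈ Ioc 0 y | n ≡ ν [MOD D]} : ℕ) : ℝ) - y / D := by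
      simp only [hκ]
      rw [sum_sub_distrib, ← sum_filter, sum_const, sum_const, nsmul_eq_mul, nsmul_eq_mul, mul_one,
        Nat.card_Ioc, Nat.sub_zero, mul_one_div]
    rw [h2]
    exact h1
  have h1 := Pool.Agent.helper85.MT.abel_tv (fun k => wt 1 a k) (fun k => ((κ k : ℝ) : ℂ)) 1 hpart N
    (Pool.Agent.helper85.MT.wt_right one_pos (by rw [← hN]; exact Nat.lt_succ_self N))
  have h2 := Pool.Agent.helper85.MT.tv_le hK0 hK (a := a) (L := 1) le_rfl (d := 1) one_pos
    (fun _ => 1) (fun _ => zero_le_one) (fun k hk => ⟨le_rfl, by rw [sub_self]; positivity⟩) N 1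
    (fun _ _ => le_rfl)
  have h3 : ∑ k ∈ Ioc 0 N, ((wt 1 a k : ℝ) : ℂ) * ((κ k : ℝ) : ℂ)
      = ((∑ n ∈ Ioc 0 N with n ≡ ν [MOD D], wt 1 a n - (∑ n ∈ Ioc 0 N, wt 1 a n) / D : ℝ) : ℂ) := by
    have e : ∑ n ∈ Ioc 0 N with n ≡ ν [MOD D], wt 1 a n - (∑ n ∈ Ioc 0 N, wt 1 a n) / D
        = ∑ k ∈ Ioc 0 N, wt 1 a k * κ k := by
      rw [sum_filter, sum_div, ← sum_sub_distrib]
      refine sum_congr rfl fun n _ => ?_
      simp only [hκ]
      split_ifs <;> ring
    rw [e]
    push_cast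
    rfl
  rw [h3, Complex.norm_real, Real.norm_eq_abs] at h1
  refine h1.trans ?_
  simp only [one_mul] at h2 ⊢
  refine h2.trans ?_
  have h4 : Real.exp a ≤ Real.exp (1 / 2 + a) := Real.exp_le_exp.2 (by linarith)
  have h5 : 4 / Real.exp (1 / 2 + a) ≤ 4 * Real.exp (-a) := by
    rw [Real.exp_neg, ← div_eq_mul_inv]
    exact div_le_div_of_nonneg_left (by norm_num) (Real.exp_pos _) h4
  calc (1 + (K + 1)) * (4 / Real.exp (1 / 2 + a)) ≤ (1 + (K + 1)) * (4 * Real.exp (-a)) :=
        mul_le_mul_of_nonneg_left h5 (by positivity)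
    _ = 4 * (K + 2) * Real.exp (-a) := by ring

/-- T1: comparison of the weights. -/
theorem wt_shift1 (A B : ℕ) (hA : 0 < A) : ∃ C a₁ : ℝ, 0 < C ∧ ∀ a : ℝ, a₁ ≤ a → ∀ n : ℕ, 0 < n →
    |wt 1 a n - A * wt 1 (a + Real.log A) (A * n + B)| ≤
      (if Real.exp a ≤ n ∧ (n : ℝ) ≤ Real.exp (a + 2) then C / (n : ℝ) ^ 2 else 0) := by
  obtain ⟨K, hK0, hK⟩ := Pool.Agent.helper85.MT.V_lip
  refine ⟨(K + 1) * B + 1, 1 + 4 * B, by positivity, ?_⟩
  intro a ha n hn
  have hB0 : (0 : ℝ) ≤ B := Nat.cast_nonneg B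
  have hA' : (1 : ℝ) ≤ A := by exact_mod_cast hA
  have hA0 : (0 : ℝ) < A := by linarith
  have hn' : (1 : ℝ) ≤ n := by exact_mod_cast hn
  have hn0 : (0 : ℝ) < n := by linarith
  set n' : ℝ := n + B / A with hn'def
  have hBA : (B : ℝ) / A ≤ B := div_le_self hB0 hA'
  have hBA0 : 0 ≤ (B : ℝ) / A := by positivity
  have hnn' : (n : ℝ) ≤ n' := by linarith
  have hn'0 : 0 < n' := by linarith
  have e1 : (A : ℝ) * wt 1 (a + Real.log A) (A * n + B) = V (Real.log n' - a) / n' := by
    unfold wt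
    push_cast
    have h1 : (A : ℝ) * n + B = A * n' := by rw [hn'def]; field_simp
    rw [h1, Real.log_mul hA0.ne' hn'0.ne', div_one,
      show Real.log A + Real.log n' - (a + Real.log A) = Real.log n' - a by ring]
    field_simp
  have e2 : wt 1 a n = V (Real.log n - a) / n := by
    unfold wt
    rw [div_one]
  rw [e1, e2]
  split_ifs with h
  · have h0 : 0 ≤ V (Real.log n - a) := V_nonneg _
    have h0' : V (Real.log n - a) ≤ 1 := V_le_one _
    have hlog0 : 0 ≤ Real.log n' - Real.log n := by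
      have := Real.log_le_log hn0 hnn'
      linarith
    have hlog : Real.log n' - Real.log n ≤ B / n := by
      have h1 : Real.log (n' / n) ≤ n' / n - 1 := Real.log_le_sub_one_of_pos (by positivity)
      rw [Real.log_div hn'0.ne' hn0.ne'] at h1
      have h2 : n' / n - 1 = (B / A) / n := by rw [hn'def]; field_simp; ring
      have h3 : (B / A : ℝ) / n ≤ B / n := div_le_div_of_nonneg_right hBA hn0.le
      linarith
    have hv : |V (Real.log n - a) - V (Real.log n' - a)| ≤ K * (B / n) := by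
      refine (hK _ _).trans (mul_le_mul_of_nonneg_left ?_ hK0)
      rw [abs_sub_comm, show Real.log n' - a - (Real.log n - a) = Real.log n' - Real.log n by ring,
        abs_of_nonneg hlog0]
      exact hlog
    have e : V (Real.log n - a) / n - V (Real.log n' - a) / n'
        = (V (Real.log n - a) - V (Real.log n' - a)) / n'
          + V (Real.log n - a) * ((n' - n) / (n * n')) := by
      field_simp
      ring
    rw [e]
    have a1 : |(V (Real.log n - a) - V (Real.log n' - a)) / n'| ≤ K * B / (n : ℝ) ^ 2 := by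
      rw [abs_div, abs_of_pos hn'0]
      calc |V (Real.log n - a) - V (Real.log n' - a)| / n' ≤ (K * (B / n)) / n :=
            div_le_div₀ (by positivity) hv hn0 hnn'
        _ = _ := by field_simp
    have a2 : |V (Real.log n - a) * ((n' - n) / (n * n'))| ≤ B / (n : ℝ) ^ 2 := by
      have h5 : 0 ≤ n' - n := by linarith
      rw [abs_of_nonneg (by positivity)]
      calc V (Real.log n - a) * ((n' - n) / (n * n')) ≤ 1 * (B / (n * n)) := by
            refine mul_le_mul h0' ?_ (by positivity) zero_le_one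
            refine div_le_div₀ hB0 (by linarith) (by positivity) ?_
            exact mul_le_mul_of_nonneg_left hnn' hn0.le
        _ = _ := by rw [one_mul, pow_two]
    have h6 : 0 < 1 / (n : ℝ) ^ 2 := by positivity
    calc _ ≤ _ := abs_add_le _ _
      _ ≤ K * B / (n : ℝ) ^ 2 + B / (n : ℝ) ^ 2 := add_le_add a1 a2
      _ ≤ K * B / (n : ℝ) ^ 2 + B / (n : ℝ) ^ 2 + 1 / (n : ℝ) ^ 2 := by linarith
      _ = _ := by ring
  · have z : ∀ x : ℝ, 0 < x → (x ≤ Real.exp (a + 1 / 2) ∨ Real.exp (a + 1) ≤ x) →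
        V (Real.log x - a) = 0 := by
      intro x hx hx'
      rcases hx' with hx' | hx'
      · refine V_eq_zero_left ?_
        have := (Real.log_le_iff_le_exp hx).mpr hx'
        linarith
      · refine V_eq_zero_right ?_
        have := (Real.le_log_iff_exp_le hx).mpr hx'
        linarith
    have hea : 1 + 4 * (B : ℝ) ≤ Real.exp a := by
      have := Real.add_one_le_exp a
      linarith
    rw [not_and_or, not_le, not_le] at h
    rcases h with h | h
    · have h1 : Real.exp a * (1 + 1 / 2) ≤ Real.exp (a + 1 / 2) := by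
        rw [Real.exp_add]
        refine mul_le_mul_of_nonneg_left ?_ (Real.exp_pos a).le
        have := Real.add_one_le_exp (1 / 2 : ℝ)
        linarith
      have h2 : n' ≤ Real.exp (a + 1 / 2) := by linarith
      rw [z n hn0 (Or.inl (by linarith)), z n' hn'0 (Or.inl h2)]
      simp
    · have h1 : Real.exp (a + 1) ≤ Real.exp (a + 2) := Real.exp_le_exp.2 (by linarith)
      rw [z n hn0 (Or.inr (by linarith)), z n' hn'0 (Or.inr (by linarith))]
      simp

end Pool.Agent.helper85.FC
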