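import Pool.Agent.helper85.FC.Defs
import Pool.Agent.helper13.MT.TR10b

/-!
# FC T2: sums over labels, real bound
-/

namespace Pool.Agent.helper85.FC

open Finset Real ArithmeticFunction Pool.Agent.helper39.MT

open Pool.Agent.helper39.MT.TR10b in
/-- T2: sums over labels. -/
theorem sum_labels' (k W R : ℕ) (Y : ℝ) (X : ℕ → ℝ) (hX : ∀ D, 0 ≤ X D) (t : ℕ) :
    ∑ τ : PS W R → Option (Fin k) with (dd (fun p : PS W R => (p : ℕ)) τ : ℝ) ≤ Y,
        (t : ℝ) ^ (#{p | τ p ≠ none}) * X (dd (fun p : PS W R => (p : ℕ)) τ)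
      ≤ ∑ D ∈ Icc 1 ⌊Y⌋₊ with Squarefree D ∧ Nat.Coprime D W,
        ((t * k : ℕ) : ℝ) ^ D.primeFactors.card * X D := by
  classical
  have hmaps : ∀ τ ∈ ({τ : PS W R → Option (Fin k) |
      (dd (fun p : PS W R => (p : ℕ)) τ : ℝ) ≤ Y} : Finset _),
      dd (fun p : PS W R => (p : ℕ)) τ ∈
        (Icc 1 ⌊Y⌋₊).filter (fun D => Squarefree D ∧ Nat.Coprime D W) := by
    intro τ hτ
    rw [mem_filter] at hτ
    rw [mem_filter, mem_Icc]
    exact ⟨⟨dd_pos τ, Nat.le_floor hτ.2⟩, dd_squarefree τ, dd_coprime τ⟩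
  rw [← sum_fiberwise_of_maps_to hmaps]
  refine sum_le_sum fun D _ => ?_
  calc ∑ τ ∈ ({τ : PS W R → Option (Fin k) |
        (dd (fun p : PS W R => (p : ℕ)) τ : ℝ) ≤ Y} : Finset _).filter
          (fun τ => dd (fun p : PS W R => (p : ℕ)) τ = D),
        (t : ℝ) ^ (#{p | τ p ≠ none}) * X (dd (fun p : PS W R => (p : ℕ)) τ)
      = ∑ τ ∈ ({τ : PS W R → Option (Fin k) |
        (dd (fun p : PS W R => (p : ℕ)) τ : ℝ) ≤ Y} : Finset _).filter
          (fun τ => dd (fun p : PS W R => (p : ℕ)) τ = D),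
        (t : ℝ) ^ D.primeFactors.card * X D := by
        refine sum_congr rfl fun τ hτ => ?_
        rw [mem_filter] at hτ
        rw [card_supp, hτ.2]
    _ = (#(({τ : PS W R → Option (Fin k) |
        (dd (fun p : PS W R => (p : ℕ)) τ : ℝ) ≤ Y} : Finset _).filter
          (fun τ => dd (fun p : PS W R => (p : ℕ)) τ = D)) : ℝ) *
        ((t : ℝ) ^ D.primeFactors.card * X D) := by
        rw [sum_const, nsmul_eq_mul]
    _ ≤ ((k ^ D.primeFactors.card : ℕ) : ℝ) * ((t : ℝ) ^ D.primeFactors.card * X D) := by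
        refine mul_le_mul_of_nonneg_right ?_ (mul_nonneg (by positivity) (hX D))
        have : #(({τ : PS W R → Option (Fin k) |
          (dd (fun p : PS W R => (p : ℕ)) τ : ℝ) ≤ Y} : Finset _).filter
          (fun τ => dd (fun p : PS W R => (p : ℕ)) τ = D)) ≤ k ^ D.primeFactors.card := by
          refine (card_le_card ?_).trans (fiber_card (k := k) (W := W) (R := R) D)
          intro τ hτ
          rw [mem_filter] at hτ ⊢
          exact ⟨mem_univ _, hτ.2⟩
        exact_mod_cast this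
    _ = ((t * k : ℕ) : ℝ) ^ D.primeFactors.card * X D := by
        push_cast
        rw [mul_pow]
        ring

end Pool.Agent.helper85.FC
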