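import Pool.Agent.helper17.MT.TR4
import Pool.Agent.helper17.MT.TR10a
import Pool.Agent.helper13.MT.TR1
import Pool.Agent.helper13.MT.TR3
import Pool.Agent.helper99.FC.T01
import Pool.Agent.helper99.FC.T2

/-!
# FC T3: the sum over `n` of the sieve weight
-/

namespace Pool.Agent.helper85.FC

open Finset Real ArithmeticFunction Pool.Agent.helper39.MT

lemma T3_pow_le_exp_large (K : ℝ) (n : ℕ) {δ : ℝ} (hδ : 0 < δ) :
    ∃ L₁ : ℝ, ∀ L : ℝ, L₁ ≤ L → K * L ^ n ≤ Real.exp (δ * L) := by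
  refine ⟨max 0 (K * (Nat.factorial (n + 1)) / δ ^ (n + 1)), fun L hL => ?_⟩
  have h0 : 0 ≤ L := (le_max_left _ _).trans hL
  have h1 : K * (Nat.factorial (n + 1)) / δ ^ (n + 1) ≤ L := (le_max_right _ _).trans hL
  have hf : (0 : ℝ) < Nat.factorial (n + 1) := by exact_mod_cast Nat.factorial_pos _
  have h2 := Real.pow_div_factorial_le_exp (δ * L) (by positivity) (n + 1)
  refine le_trans ?_ h2
  rw [div_le_iff₀ (by positivity)] at h1
  rw [le_div_iff₀ hf, mul_pow, pow_succ L n]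
  calc K * L ^ n * (Nat.factorial (n + 1)) = (K * (Nat.factorial (n + 1))) * L ^ n := by ring
    _ ≤ (L * δ ^ (n + 1)) * L ^ n := mul_le_mul_of_nonneg_right h1 (by positivity)
    _ = δ ^ (n + 1) * (L ^ n * L) := by ring

lemma T3_dd_le_mul {ι : Type*} [Fintype ι] [DecidableEq ι] {k : ℕ} (pr : ι → ℕ)
    (hpr : ∀ p, 1 ≤ pr p) (τ σ σ' : ι → Option (Fin k))
    (h : ∀ p, τ p ≠ none → σ p ≠ none ∨ σ' p ≠ none) : dd pr τ ≤ dd pr σ * dd pr σ' := by
  unfold dd
  rw [← prod_mul_distrib]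
  refine prod_le_prod' fun p _ => ?_
  have hp := hpr p
  by_cases h1 : τ p = none
  · rw [if_pos h1]
    split_ifs <;> nlinarith
  · rw [if_neg h1]
    rcases h p h1 with h2 | h2
    · rw [if_neg h2]
      split_ifs <;> nlinarith
    · rw [if_neg h2]
      split_ifs <;> nlinarith

/-- T3: the sum over `n` of the sieve weight. -/
theorem S1_gen {k D₀ W : ℕ} {A B : Fin k → ℕ} (h : Std k D₀ A B W) (hD : 4 * k + 4 ≤ D₀) :
    ∃ a₁ : ℝ, ∀ a : ℝ, a₁ ≤ a → ∀ R : ℕ, 2 ≤ R → (R : ℝ) ≤ Real.exp a →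
      ∀ y : (PS W R → Option (Fin k)) → ℝ, (∀ σ, |y σ| ≤ 1) →
      (∀ σ, y σ ≠ 0 → (dd (fun p : PS W R => (p : ℕ)) σ : ℝ) ≤ Real.exp (a / 16)) →
      |∑ n ∈ Ioc 0 (NN 1 a), wt 1 a n * FF (fun p : PS W R => (p : ℕ)) y (pat A B (PS W R) n) ^ 2
        - mass a * Ex (fun p : PS W R => mu0 (p : ℝ))
            (fun e => FF (fun p : PS W R => (p : ℕ)) y e ^ 2)| ≤ Real.exp (-a / 4) := by
  classical
  obtain ⟨C1, hC1, hprod⟩ := prod_small k
  obtain ⟨C2, hC2, homega⟩ := pow_omega_le (6 * k)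
  obtain ⟨C3, hC3, hequi⟩ := wt_equi1
  obtain ⟨L₁, hL₁⟩ := T3_pow_le_exp_large (C1 * C2 * C3) (2 * k) (δ := 1 / 2) (by norm_num)
  refine ⟨max 1 L₁, fun a ha R hR hRa y hy hyR => ?_⟩
  have ha1 : 1 ≤ a := (le_max_left _ _).trans ha
  have haL := hL₁ a ((le_max_right _ _).trans ha)
  have hprime : ∀ p : PS W R, (p : ℕ).Prime := fun p => (mem_PS.1 p.2).2.1
  have hsmall : ∀ p : ℕ, p.Prime → p ≤ 4 * k + 4 → p ∣ W := fun p hp hle =>
    h.small p hp (hle.trans hD)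
  have hlarge : ∀ p : PS W R, 4 * k + 4 ≤ (p : ℕ) := by
    intro p
    by_contra hlt
    exact (mem_PS.1 p.2).2.2 (hsmall p (hprime p) (by omega))
  obtain ⟨c, hc1, hc2, hc3⟩ := FF_expand (fun p : PS W R => (p : ℕ)) hlarge y hy
  choose ν hν1 hν2 hν3 using fun τ : PS W R → Option (Fin k) => ind_pat (R := R) h τ
  set S : ℝ := mass a with hS
  set P : ℝ := ∏ p : PS W R, (1 + (k : ℝ) / (((p : ℕ) : ℝ) - 1)) ^ 2 with hP
  have hP0 : 0 ≤ P := prod_nonneg fun p _ => sq_nonneg _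
  -- expansion of the expectation
  have hEx : Ex (fun p : PS W R => mu0 (p : ℝ))
      (fun e => FF (fun p : PS W R => (p : ℕ)) y e ^ 2) =
      ∑ τ, c τ * (1 / (dd (fun p : PS W R => (p : ℕ)) τ : ℝ)) := by
    have h1 : Ex (fun p : PS W R => mu0 (p : ℝ))
        (fun e => FF (fun p : PS W R => (p : ℕ)) y e ^ 2) =
        ∑ τ, c τ * Ex (fun p : PS W R => mu0 (k := k) (((p : ℕ)) : ℝ)) (ind τ) := by
      unfold Ex
      simp only [hc1, mul_sum]
      rw [sum_comm]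
      refine sum_congr rfl fun τ _ => sum_congr rfl fun e _ => ?_
      ring
    rw [h1]
    refine sum_congr rfl fun τ _ => ?_
    rw [Ex_mu0_ind (fun p : PS W R => (p : ℕ)) τ]
  -- expansion of the sum
  have hsum : ∑ n ∈ Ioc 0 (NN 1 a),
      wt 1 a n * FF (fun p : PS W R => (p : ℕ)) y (pat A B (PS W R) n) ^ 2 =
      ∑ τ, c τ * ∑ n ∈ Ioc 0 (NN 1 a) with
        n ≡ ν τ [MOD dd (fun p : PS W R => (p : ℕ)) τ], wt 1 a n := by
    simp only [hc1, mul_sum]
    rw [sum_comm]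
    refine sum_congr rfl fun τ _ => ?_
    rw [sum_filter]
    refine sum_congr rfl fun n _ => ?_
    rw [hν2 τ n]
    split_ifs
    · ring
    · ring
  -- the error of one label
  have hone : ∀ τ : PS W R → Option (Fin k), |c τ * ∑ n ∈ Ioc 0 (NN 1 a) with
        n ≡ ν τ [MOD dd (fun p : PS W R => (p : ℕ)) τ], wt 1 a n -
      S * (c τ * (1 / (dd (fun p : PS W R => (p : ℕ)) τ : ℝ)))| ≤
        |c τ| * (C3 * Real.exp (-a)) := by
    intro τ
    have hd : 0 < dd (fun p : PS W R => (p : ℕ)) τ := (Nat.zero_le _).trans_lt (hν1 τ)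
    have h1 := hequi a ha1 _ (ν τ) hd
    rw [← hS] at h1
    set Z := ∑ n ∈ Ioc 0 (NN 1 a) with
        n ≡ ν τ [MOD dd (fun p : PS W R => (p : ℕ)) τ], wt 1 a n
    have h2 : c τ * Z - S * (c τ * (1 / (dd (fun p : PS W R => (p : ℕ)) τ : ℝ))) =
        c τ * (Z - S / (dd (fun p : PS W R => (p : ℕ)) τ : ℝ)) := by ring
    rw [h2, abs_mul]
    exact mul_le_mul_of_nonneg_left h1 (abs_nonneg _)
  -- the sum of the coefficients
  have hcsum : ∑ τ, |c τ| ≤ P * (C2 * Real.exp (a / 4)) := by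
    have h1 : ∑ τ, |c τ| = ∑ τ : PS W R → Option (Fin k) with
        (dd (fun p : PS W R => (p : ℕ)) τ : ℝ) ≤ Real.exp (a / 8), |c τ| := by
      symm
      apply sum_filter_of_ne
      intro τ _ hτ
      have hτ' : c τ ≠ 0 := fun h0 => hτ (by rw [h0, abs_zero])
      obtain ⟨σ, σ', hσ, hσ', hsub⟩ := hc3 τ hτ'
      have h4 := T3_dd_le_mul (fun p : PS W R => (p : ℕ)) (fun p => (hprime p).one_le) τ σ σ' hsub
      have h5 : (dd (fun p : PS W R => (p : ℕ)) τ : ℝ) ≤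
          (dd (fun p : PS W R => (p : ℕ)) σ : ℝ) * (dd (fun p : PS W R => (p : ℕ)) σ' : ℝ) := by
        exact_mod_cast h4
      refine h5.trans ((mul_le_mul (hyR σ hσ) (hyR σ' hσ') (Nat.cast_nonneg _)
        (Real.exp_pos _).le).trans (le_of_eq ?_))
      rw [← Real.exp_add]
      congr 1
      ring
    have h2 := sum_labels' k W R (Real.exp (a / 8)) (fun _ => 1) (fun _ => zero_le_one) 6
    simp only [mul_one] at h2
    have h3 : ∑ D ∈ Icc 1 ⌊Real.exp (a / 8)⌋₊ with Squarefree D ∧ Nat.Coprime D W,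
        ((6 * k : ℕ) : ℝ) ^ D.primeFactors.card ≤ C2 * Real.exp (a / 4) := by
      have hfl : ((⌊Real.exp (a / 8)⌋₊ : ℕ) : ℝ) ≤ Real.exp (a / 8) :=
        Nat.floor_le (Real.exp_pos _).le
      calc ∑ D ∈ Icc 1 ⌊Real.exp (a / 8)⌋₊ with Squarefree D ∧ Nat.Coprime D W,
            ((6 * k : ℕ) : ℝ) ^ D.primeFactors.card
          ≤ ∑ D ∈ Icc 1 ⌊Real.exp (a / 8)⌋₊, ((6 * k : ℕ) : ℝ) ^ D.primeFactors.card :=
            sum_le_sum_of_subset_of_nonneg (filter_subset _ _) fun _ _ _ => by positivity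
        _ ≤ ∑ _D ∈ Icc 1 ⌊Real.exp (a / 8)⌋₊, C2 * Real.exp (a / 8) := by
            refine sum_le_sum fun D hD' => ?_
            rw [mem_Icc] at hD'
            refine (homega D (by omega)).trans (mul_le_mul_of_nonneg_left ?_ hC2.le)
            have hD1 : (1 : ℝ) ≤ D := by exact_mod_cast hD'.1
            calc (D : ℝ) ^ (1 / 4 : ℝ) ≤ (D : ℝ) ^ (1 : ℝ) :=
                  Real.rpow_le_rpow_of_exponent_le hD1 (by norm_num)
              _ = D := Real.rpow_one _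
              _ ≤ ((⌊Real.exp (a / 8)⌋₊ : ℕ) : ℝ) := by exact_mod_cast hD'.2
              _ ≤ _ := hfl
        _ = ((⌊Real.exp (a / 8)⌋₊ : ℕ) : ℝ) * (C2 * Real.exp (a / 8)) := by
            rw [sum_const, Nat.card_Icc, nsmul_eq_mul, Nat.add_sub_cancel]
        _ ≤ Real.exp (a / 8) * (C2 * Real.exp (a / 8)) :=
            mul_le_mul_of_nonneg_right hfl (by positivity)
        _ = C2 * (Real.exp (a / 8) * Real.exp (a / 8)) := by ring
        _ = C2 * Real.exp (a / 4) := by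
            rw [← Real.exp_add]
            congr 2
            ring
    rw [h1]
    calc ∑ τ : PS W R → Option (Fin k) with
          (dd (fun p : PS W R => (p : ℕ)) τ : ℝ) ≤ Real.exp (a / 8), |c τ|
        ≤ ∑ τ : PS W R → Option (Fin k) with
          (dd (fun p : PS W R => (p : ℕ)) τ : ℝ) ≤ Real.exp (a / 8),
            P * ((6 : ℕ) : ℝ) ^ (#{p | τ p ≠ none}) := by
          refine sum_le_sum fun τ _ => ?_
          have := hc2 τ
          exact_mod_cast this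
      _ = P * ∑ τ : PS W R → Option (Fin k) with
          (dd (fun p : PS W R => (p : ℕ)) τ : ℝ) ≤ Real.exp (a / 8),
            ((6 : ℕ) : ℝ) ^ (#{p | τ p ≠ none}) := by rw [mul_sum]
      _ ≤ P * (C2 * Real.exp (a / 4)) := mul_le_mul_of_nonneg_left (h2.trans h3) hP0
  have hPle : P ≤ C1 * a ^ (2 * k) := by
    refine (hprod W R hR hsmall).trans (mul_le_mul_of_nonneg_left ?_ hC1.le)
    have hR1 : (1 : ℝ) < R := by exact_mod_cast (by omega : 1 < R)
    have h1 : Real.log R ≤ a := by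
      rw [Real.log_le_iff_le_exp (by linarith)]
      exact hRa
    exact pow_le_pow_left₀ (Real.log_nonneg hR1.le) h1 _
  rw [hsum, hEx, mul_sum, ← sum_sub_distrib]
  calc |∑ τ, (c τ * ∑ n ∈ Ioc 0 (NN 1 a) with
        n ≡ ν τ [MOD dd (fun p : PS W R => (p : ℕ)) τ], wt 1 a n -
          S * (c τ * (1 / (dd (fun p : PS W R => (p : ℕ)) τ : ℝ))))|
      ≤ ∑ τ, |c τ| * (C3 * Real.exp (-a)) :=
        (abs_sum_le_sum_abs _ _).trans (sum_le_sum fun τ _ => hone τ)
    _ = (∑ τ, |c τ|) * (C3 * Real.exp (-a)) := by rw [← sum_mul]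
    _ ≤ (C1 * a ^ (2 * k) * (C2 * Real.exp (a / 4))) * (C3 * Real.exp (-a)) := by
        refine mul_le_mul_of_nonneg_right (hcsum.trans ?_) (by positivity)
        exact mul_le_mul_of_nonneg_right hPle (by positivity)
    _ = (C1 * C2 * C3 * a ^ (2 * k)) * (Real.exp (a / 4) * Real.exp (-a)) := by ring
    _ ≤ Real.exp (1 / 2 * a) * (Real.exp (a / 4) * Real.exp (-a)) :=
        mul_le_mul_of_nonneg_right haL (by positivity)
    _ = Real.exp (-a / 4) := by
        rw [← Real.exp_add, ← Real.exp_add]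
        congr 1
        ring

end Pool.Agent.helper85.FC
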